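import Pool.Agent.Q227.ST.B5

/-!
# `k`-star colouring of `(2 k - 4)`-regular graphs is NP-complete, for every `k ≥ 5`

The reduction is from colouring with `k - 2` colours. The graphs are made of copies of the graph
whose vertices are the arcs of the complete digraph on `k` vertices, two arcs being adjacent if they
are consecutive on a directed triangle. Every star colouring with `k` colours of a
`(2 k - 4)`-regular graph orients the edges, and at every copy it is given by a permutation of the
colours.
-/

set_option autoImplicit false

namespace Pool.Agent.Results.MP_b4e77d_lc.FromFive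

open Pool.Agent.NPC Pool.Agent.H673R2 Pool.Agent.H679R2 Pool.Agent.Q227.ST

/-- For every `k ≥ 5`, star colourability with `k` colours is in `NP`, and every language in `NP`
has a polynomial-time many-one reduction to it, all of whose instances are `(2 k - 4)`-regular
graphs. -/
theorem result (k : ℕ) (hk : 5 ≤ k) :
    InNPP (fun I : List ℕ × List (ℕ × ℕ) => StarColourable (toGraph I) k) ∧
    NPHardOn (fun I : List ℕ × List (ℕ × ℕ) => IsRegular (toGraph I) (2 * k - 4))
      (fun I : List ℕ × List (ℕ × ℕ) => StarColourable (toGraph I) k) := by
  obtain ⟨p, rfl⟩ : ∃ p, k = p + 2 := ⟨k - 2, by omega⟩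
  refine ⟨inNPP_star (p + 2), ?_⟩
  intro L hL
  obtain ⟨f, hf, hpr, hfL⟩ := hard_star (p := p) (by omega) L hL
  refine ⟨f, hf, fun x => ?_, hfL⟩
  have h := (hpr x).1
  have e : 2 * (p + 2) - 4 = 2 * p := by omega
  rw [e]
  exact h

end Pool.Agent.Results.MP_b4e77d_lc.FromFive
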